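import Mathlib

/-!
# Triangle Artin groups and CAT(0) cube complexes: definitions

A cube complex is given by its set `V` of vertices and the family `C` of the vertex sets of its
cubes. Every cube is determined by its vertices and two cubes meet in a common face or not at all
(as in every CAT(0) cube complex). Cubes have finite dimension; no other finiteness is imposed.
-/

namespace Pool.TAX

/-- The alternating product `x y x y ...` with `n` factors. -/
def alt {M : Type} [Monoid M] (x y : M) (n : ℕ) : M :=
  ((List.range n).map fun i => if i % 2 = 0 then x else y).prod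

/-- The relators of a triangle Artin group. -/
def rels {G : Type} [Group G] (a b c : G) (m n p : ℕ) : Set G :=
  {alt a b m * (alt b a m)⁻¹, alt b c n * (alt c b n)⁻¹, alt c a p * (alt a c p)⁻¹}

variable {V : Type}

/-- The face of the cube `{0,1}^n` given by prescribing some coordinates. -/
def face {n : ℕ} (p : Fin n → Option Bool) : Set (Fin n → Bool) :=
  {f | ∀ i b, p i = some b → f i = b}

/-- `C` is the family of the vertex sets of the cubes of a cube complex with vertex set `V`:
vertices are cubes, the cubes inside a cube `A` are the faces of `A` for some bijection of `A` with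
some `{0,1}^n`, and two cubes meet in a cube or not at all. -/
def IsComplex (C : Set (Set V)) : Prop :=
  (∀ v, {v} ∈ C) ∧
  (∀ A ∈ C, ∃ (n : ℕ) (e : (Fin n → Bool) → V), Function.Injective e ∧ Set.range e = A ∧
    ∀ D, (D ∈ C ∧ D ⊆ A) ↔ ∃ p : Fin n → Option Bool, D = e '' face p) ∧
  ∀ A ∈ C, ∀ D ∈ C, (A ∩ D).Nonempty → A ∩ D ∈ C

/-- `u` and `v` are joined by an edge. -/
def Adj (C : Set (Set V)) (u v : V) : Prop := u ≠ v ∧ {u, v} ∈ C

/-- All vertex links are flag: a finite set `S` of neighbours of `v` which pairwise span squares at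
`v` is the set of neighbours of `v` in a cube. -/
def FlagLinks (C : Set (Set V)) : Prop :=
  ∀ (v : V) (S : Set V), S.Finite → (∀ u ∈ S, Adj C v u) →
    (∀ u ∈ S, ∀ w ∈ S, u ≠ w → ∃ A ∈ C, v ∈ A ∧ {x | x ∈ A ∧ Adj C v x} = {u, w}) →
    ∃ A ∈ C, v ∈ A ∧ {x | x ∈ A ∧ Adj C v x} = S

/-- `u :: l` is an edge path from `u` to `v`, with `l.length` edges. -/
def Path (C : Set (Set V)) (u v : V) (l : List V) : Prop :=
  (u :: l).IsChain (Adj C) ∧ (u :: l).getLast? = some v

/-- Elementary homotopies of edge paths: insert a backtrack, or push a path of length two across a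
square. -/
inductive Move (C : Set (Set V)) : List V → List V → Prop
  | spur (l r : List V) (u v : V) : Adj C u v → Move C (l ++ u :: r) (l ++ u :: v :: u :: r)
  | square (l r : List V) (u v w x : V) : {u, v, w, x} ∈ C → Adj C u v → Adj C v w → Adj C w x →
      Adj C x u → u ≠ w → v ≠ x → Move C (l ++ u :: v :: w :: r) (l ++ u :: x :: w :: r)

/-- Connected and simply connected. -/
def SimplyConn (C : Set (Set V)) : Prop :=
  Nonempty V ∧ (∀ u v, ∃ l, Path C u v l) ∧
    ∀ v l, Path C v v l → Relation.EqvGen (Move C) (v :: l) [v]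

/-- `G` acts properly by cubical automorphisms on some CAT(0) cube complex (`a` is the action; every
vertex is moved a distance at most `R`, in the 1-skeleton, by finitely many `g` only). -/
def ActsProperly (G : Type) [Group G] : Prop :=
  ∃ (V : Type) (C : Set (Set V)) (a : G → V → V), IsComplex C ∧ FlagLinks C ∧ SimplyConn C ∧
    (∀ v, a 1 v = v) ∧ (∀ g h v, a (g * h) v = a g (a h v)) ∧ (∀ g, ∀ A ∈ C, a g '' A ∈ C) ∧
    ∀ (v : V) (R : ℕ), {g : G | ∃ l, l.length ≤ R ∧ Path C v (a g v) l}.Finite

/-- The triangle Artin group `A_{m,n,p}` acts properly on some CAT(0) cube complex. -/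
def ArtinActs (m n p : ℕ) : Prop :=
  ActsProperly (PresentedGroup
    (rels (FreeGroup.of (0 : Fin 3)) (FreeGroup.of 1) (FreeGroup.of 2) m n p))

end Pool.TAX
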