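import Pool.Agent.H79.TAX.Defs
import Pool.Agent.H14.TA.ArtinDef
import Pool.Agent.H14.TA.CubeDefs
import Pool.Agent.H14.TA.FINAL
import Pool.Agent.H16.TA.PARTS
import Pool.Agent.H16.TA.RETL
import Pool.Agent.H17.TA.STEP
import Pool.Agent.H24.TA.F2
import Pool.Agent.H28.TA.DEL
import Pool.Agent.H28.TA.PAR
import Pool.Agent.H32.TA.GOODF
import Pool.Agent.H32.TA.SIDEG
import Pool.Agent.H46.TA.LG
import Pool.Agent.H46.TA.M1C
import Pool.Agent.H46.TA.M3
import Pool.Agent.H47.TA.Cube
import Pool.Agent.H59.TA.CNT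
import Pool.Agent.H59.TA.GR
import Pool.Agent.H59.TA.M1A
import Pool.Agent.H59.TA.M2
import Pool.Agent.H65.TA.D2
import Pool.Agent.H65.TA.SYL
import Pool.Agent.H65.TA.TL2
import Pool.Agent.H72.TA.D3V
import Pool.Agent.H77.TA.Alg
import Pool.Agent.H90.TA.D1
import Pool.Agent.H90.TA.D3
import Pool.Agent.H98.TA.Win3

/-!
# Hyperbolic triangle Artin groups acting properly on CAT(0) cube complexes: proof
-/

set_option autoImplicit false

namespace TA

theorem proper_tax (κ : ℕ) (hκ : 20 ≤ κ) : ActsProperly (Artin (4 * κ) (4 * κ) (4 * κ)) := by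
  have hD2 : S_D2 := d2_of sided d1 del_
  have hGR : S_GR := gr_of (wm_of (step_of diam convw) nck) (syl2 syl1) hD2 retl
  have hCL : S_CL := cl_of (tl1_of retl) tl2 hGR retl
  have hBL : S_BL := bl_of hCL altq retl
  have hQA : S_QA := qa_of hCL hBL altq retl
  have hGF : S_GOODF := goodf_of del_ d1
  have hSG : S_SIDEG := sideg_of hQA hGF parv park
  have hM1A : S_M1A := m1a_of hBL hQA hGF
  have hM2 : S_M2 := m2_of hBL hGF d1 parts retl
  have hALG : S_ALG := alg_of hBL hGF del_ d1 retl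
  have hM3 : S_M3 := m3_of hALG
  have hF2 : S_F2 := f2 sided
  have hD3 : S_D3 := d3_of (d3v_of f1 hF2) d3h
  have hM1C : S_M1C := m1c_of (lg hQA hGF) hD3 hM1A retl
  have hCNT : S_CNT := cnt_of hM1A hM1C hM2 hM3 parts hQA hGF
  exact final_of hSG (fin_of hCNT) act κ hκ

end TA

namespace Pool.TAX

theorem alt_succ {M : Type} [Monoid M] (x y : M) (n : ℕ) : alt x y (n + 1) = x * alt y x n := by
  unfold alt
  rw [List.range_succ_eq_map, List.map_cons, List.prod_cons, List.map_map]
  congr 2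
  apply List.map_congr_left
  intro i _
  simp only [Function.comp, Nat.succ_eq_add_one]
  rcases Nat.mod_two_eq_zero_or_one i with h | h
  · rw [if_neg (by omega), if_pos h]
  · rw [if_pos (by omega), if_neg (by omega)]

theorem alt_eq {M : Type} [Monoid M] (n : ℕ) : ∀ x y : M, alt x y n = TA.alt x y n := by
  induction n with
  | zero => intro x y; rfl
  | succ n ih =>
    intro x y
    rw [alt_succ, ih y x]
    rfl

theorem rels_eq (m n p : ℕ) :
    rels (FreeGroup.of (0 : Fin 3)) (FreeGroup.of 1) (FreeGroup.of 2) m n p = TA.rels m n p := by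
  unfold rels TA.rels
  simp only [alt_eq]

section

variable {V : Type} {C : Set (Set V)}

theorem path_of_walk {u v : V} (p : (TA.skel C).Walk u v) : ∃ l, Path C u v l := by
  induction p with
  | nil => exact ⟨[], List.isChain_singleton _, rfl⟩
  | cons h p ih =>
    obtain ⟨l, h1, h2⟩ := ih
    refine ⟨_ :: l, List.isChain_cons_cons.mpr ⟨h, h1⟩, ?_⟩
    rw [List.getLast?_cons_cons]
    exact h2

theorem walk_of_path {v : V} (l : List V) : ∀ u : V, Path C u v l →
    ∃ p : (TA.skel C).Walk u v, p.length = l.length := by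
  induction l with
  | nil =>
    rintro u ⟨_, h⟩
    have : u = v := by simpa using h
    subst this
    exact ⟨SimpleGraph.Walk.nil, rfl⟩
  | cons w l ih =>
    rintro u ⟨h1, h2⟩
    obtain ⟨ha, hc⟩ := List.isChain_cons_cons.mp h1
    rw [List.getLast?_cons_cons] at h2
    obtain ⟨p, hp⟩ := ih w ⟨hc, h2⟩
    exact ⟨SimpleGraph.Walk.cons (G := TA.skel C) ha p, by
      rw [SimpleGraph.Walk.length_cons, hp, List.length_cons]⟩

theorem homot {l l' : List V} (h : TA.Homot C l l') : Relation.EqvGen (Move C) l l' := by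
  induction h with
  | refl l => exact Relation.EqvGen.refl _
  | symm _ ih => exact ih.symm
  | trans _ _ ih1 ih2 => exact ih1.trans _ _ _ ih2
  | spur l r u v h =>
    rw [List.append_assoc, List.append_assoc]
    exact Relation.EqvGen.rel _ _ (Move.spur l r u v h)
  | square l r u v w x h h1 h2 h3 h4 h5 h6 =>
    rw [List.append_assoc, List.append_assoc]
    exact Relation.EqvGen.rel _ _ (Move.square l r u v w x h h1 h2 h3 h4 h5 h6)

end

theorem acts_of {G : Type} [Group G] (h : TA.ActsProperly G) : ActsProperly G := by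
  obtain ⟨V, C, inst, ⟨hc, hf, hs⟩, hg, hfin⟩ := h
  refine ⟨V, C, fun g v => g • v, ⟨hc.vertex, hc.faces, hc.inter⟩, hf,
    ⟨hs.1.nonempty, fun u v => ?_, fun v l hl => ?_⟩, one_smul _, mul_smul, fun g A hA => hg g A hA,
    fun v R => ?_⟩
  · obtain ⟨p⟩ := hs.1.preconnected u v
    exact path_of_walk p
  · exact homot (hs.2 v l hl.1 hl.2)
  · refine (hfin v R).subset ?_
    rintro g ⟨l, hl, hp⟩
    obtain ⟨p, hlen⟩ := walk_of_path l v hp
    exact (SimpleGraph.dist_le p).trans (hlen ▸ hl)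

theorem artin_of {m n p : ℕ} (h : TA.ActsProperly (TA.Artin m n p)) : ArtinActs m n p := by
  have key : ∀ R : Set (FreeGroup (Fin 3)), R = TA.rels m n p → ActsProperly (PresentedGroup R) := by
    rintro R rfl
    exact acts_of h
  exact key _ (rels_eq m n p)

theorem main : (∀ κ : ℕ, 20 ≤ κ → ArtinActs (4 * κ) (4 * κ) (4 * κ)) ∧
    ¬ ∀ m n p : ℕ, 2 ≤ m → 2 ≤ n → 2 ≤ p → (1 / m + 1 / n + 1 / p : ℚ) < 1 →
      ¬ ArtinActs m n p := by
  refine ⟨fun κ hκ => artin_of (TA.proper_tax κ hκ), fun h => ?_⟩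
  exact h (4 * 20) (4 * 20) (4 * 20) (by norm_num) (by norm_num) (by norm_num) (by norm_num)
    (artin_of (TA.proper_tax 20 le_rfl))

end Pool.TAX
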